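import Mathlib
import Pool.Agent.TH402.AK.Count

/-!
# Coprime triples of Gaussian integers by their radical

The abc conjecture over `ℤ[i]` bounds a coprime triple `a + b = c` by its radical. Here all triples
are counted by their radical, whatever their size.
-/

set_option autoImplicit false

namespace Pool.Agent.Results.MP_dc323a_nt.GaussianRadicalCount

/-- `max {|a|, |b|, |a + b|}` -/
noncomputable def size (a b : GaussianInt) : ℝ :=
  max ‖GaussianInt.toComplex a‖ (max ‖GaussianInt.toComplex b‖ ‖GaussianInt.toComplex (a + b)‖)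

/-- `rad(n)`: the product of `|Q|` over the Gaussian primes `Q` dividing `n`, one from each class of
associates, namely the one with `Re Q > 0` and `Im Q ≥ 0` -/
noncomputable def rad (n : GaussianInt) : ℝ :=
  ∏ᶠ Q ∈ {Q : GaussianInt | Prime Q ∧ Q ∣ n ∧ (0 < Q.re ∧ 0 ≤ Q.im)}, ‖GaussianInt.toComplex Q‖

/-- the pairs `(a, b)` of coprime Gaussian integers with `a b c ≠ 0`, where `c = a + b` -/
def Triples : Set (GaussianInt × GaussianInt) :=
  {p | p.1 ≠ 0 ∧ p.2 ≠ 0 ∧ p.1 + p.2 ≠ 0 ∧ IsCoprime p.1 p.2}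

/-- the triples with `rad(abc) ≤ X` and `log max {|a|, |b|, |c|} ≤ H` -/
def ByRadical (X H : ℝ) : Set (GaussianInt × GaussianInt) :=
  {p | p ∈ Triples ∧ rad (p.1 * p.2 * (p.1 + p.2)) ≤ X ∧ Real.log (size p.1 p.2) ≤ H}

theorem fin_of_bound {α : Type} (P : Set α) (B : ℝ) 
    (h : ∀ G : Finset α, (G : Set α) ⊆ P → (G.card : ℝ) ≤ B) : P.Finite ∧ (P.ncard : ℝ) ≤ B := by
  have hfin : P.Finite := by
    by_contra hinf
    obtain ⟨G, hGV, hGc⟩ := Set.Infinite.exists_subset_card_eq hinf (⌊B⌋₊ + 1)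
    have h1 := h G hGV
    have h2 := Nat.lt_floor_add_one B
    rw [hGc] at h1
    push_cast at h1
    linarith
  refine ⟨hfin, ?_⟩
  rw [Set.ncard_eq_toFinset_card _ hfin]
  exact h hfin.toFinset (by rw [Set.Finite.coe_toFinset])

/-- For every `ε > 0`, the number of coprime triples `a + b = c`, `a b c ≠ 0`, of Gaussian integers
with `rad(abc) ≤ X` and `log max {|a|, |b|, |c|} ≤ H` is at most `C H X ^ (4 / 3 + ε)` for all
`X, H ≥ 1`, and at least `c X ^ (4 / 3)` for all large `X` and all `H ≥ 1 + (log X) / 3`. -/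
theorem result (ε : ℝ) (hε : 0 < ε) : ∃ c C X0 : ℝ, 0 < c ∧
    (∀ X H : ℝ, 1 ≤ X → 1 ≤ H → (ByRadical X H).Finite ∧
      ((ByRadical X H).ncard : ℝ) ≤ C * H * X ^ (4 / 3 + ε)) ∧
    (∀ X H : ℝ, X0 ≤ X → 1 + Real.log X / 3 ≤ H →
      c * X ^ (4 / 3 : ℝ) ≤ ((ByRadical X H).ncard : ℝ)) := by
  obtain ⟨C, hC, h⟩ := Pool.Agent.TH402.AK.upper_height ε hε
  obtain ⟨c, X0, hc, hX0, hl⟩ := Pool.Agent.TH402.AK.lower
  refine ⟨c, C, X0, hc, ?_, ?_⟩
  · exact fun X H hX hH => fin_of_bound _ _ fun G hG => h X H hX hH G fun p hp => hG hp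
  · intro X H hX hH
    obtain ⟨F, hF, hcard⟩ := hl X hX
    have hX1 : 1 ≤ X := hX0.trans hX
    have hH1 : 1 ≤ H := by
      have := Real.log_nonneg hX1
      linarith
    have hfin : (ByRadical X H).Finite :=
      (fin_of_bound _ _ fun G hG => h X H hX1 hH1 G fun p hp => hG hp).1
    have h1 : (F : Set (GaussianInt × GaussianInt)) ⊆ ByRadical X H := by
      intro p hp
      obtain ⟨h2, h3, h4⟩ := hF p hp
      exact ⟨h2, h3, h4.trans hH⟩
    have h2 := Set.ncard_le_ncard h1 hfin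
    rw [Set.ncard_coe_finset] at h2
    refine hcard.trans ?_
    exact_mod_cast h2

end Pool.Agent.Results.MP_dc323a_nt.GaussianRadicalCount
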