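import Mathlib
import Pool.Agent.TH876.NP.Def
import Pool.Agent.TH876.NP.Def2
import Pool.Agent.TH876.NP.Def3
import Pool.Agent.TH876.NP.Classes
import Pool.Agent.TH876.NP.Roots
import Pool.Agent.TH876.NP.Gap
import Pool.Agent.TH876.NP.Choose
import Pool.Agent.TH876.NP.Scale
import Pool.Agent.TH876.NP.Core
import Pool.Agent.TH876.NP.Three
import Pool.Agent.TH876.NP.Trip
import Pool.Agent.TH876.NP.Gauss

/-!
# Coprime triples of Gaussian integers with a perfect power member by their radical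

The abc conjecture over `ℤ[i]` bounds a coprime triple `a + b = c` by its radical. Here the triples
one member of which is a unit times an `m`-th power are counted by their radical; their size may be
much larger than every power of the radical.
-/

set_option autoImplicit false

namespace Pool.Agent.Results.MP_dc323a_nt.PerfectPowerMember

/-- `max {|a|, |b|, |a + b|}` -/
noncomputable def size (a b : GaussianInt) : ℝ :=
  max ‖GaussianInt.toComplex a‖ (max ‖GaussianInt.toComplex b‖ ‖GaussianInt.toComplex (a + b)‖)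

/-- `rad(n)`: the product of `|Q|` over the Gaussian primes `Q` dividing `n`, one from each class of
associates, namely the one with `Re Q > 0` and `Im Q ≥ 0` -/
noncomputable def rad (n : GaussianInt) : ℝ :=
  ∏ᶠ Q ∈ {Q : GaussianInt | Prime Q ∧ Q ∣ n ∧ (0 < Q.re ∧ 0 ≤ Q.im)}, ‖GaussianInt.toComplex Q‖

/-- the pairs `(a, b)` of coprime Gaussian integers with `a b c ≠ 0`, where `c = a + b`, one of `a`,
`b`, `c` being a unit times an `m`-th power -/
def Triples (m : ℕ) : Set (GaussianInt × GaussianInt) :=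
  {p | p.1 ≠ 0 ∧ p.2 ≠ 0 ∧ p.1 + p.2 ≠ 0 ∧ IsCoprime p.1 p.2 ∧ ∃ u z : GaussianInt, IsUnit u ∧
    (p.1 = u * z ^ m ∨ p.2 = u * z ^ m ∨ p.1 + p.2 = u * z ^ m)}

/-- the triples with `rad(abc) ≤ X`, all Gaussian primes dividing `abc` of absolute value at most
`y`, and `log max {|a|, |b|, |c|} ≤ H` -/
def ByRadical (m : ℕ) (X y H : ℝ) : Set (GaussianInt × GaussianInt) :=
  {p | p ∈ Triples m ∧ rad (p.1 * p.2 * (p.1 + p.2)) ≤ X ∧
    (∀ Q : GaussianInt, Prime Q → Q ∣ p.1 * p.2 * (p.1 + p.2) → ‖GaussianInt.toComplex Q‖ ≤ y) ∧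
    Real.log (size p.1 p.2) ≤ H}

theorem fin_of_bound {α : Type} (P : Set α) (B : ℝ)
    (h : ∀ G : Finset α, (G : Set α) ⊆ P → (G.card : ℝ) ≤ B) : P.Finite ∧ (P.ncard : ℝ) ≤ B := by
  have hfin : P.Finite := by
    by_contra hinf
    obtain ⟨G, hGV, hGc⟩ := Set.Infinite.exists_subset_card_eq hinf (⌊B⌋₊ + 1)
    have h1 := h G hGV
    have h2 := Nat.lt_floor_add_one B
    rw [hGc] at h1
    push_cast at h1
    linarith
  refine ⟨hfin, ?_⟩
  rw [Set.ncard_eq_toFinset_card _ hfin]
  exact h hfin.toFinset (by rw [Set.Finite.coe_toFinset])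

/-- For every `m ≥ 2` and `ε > 0` there is `C` such that for all `X, y, H ≥ 1` at most
`C y ^ 2 X ^ (2 (m + 1) / (2 m + 1) + ε) (1 + log H)` coprime triples `a + b = c`, `a b c ≠ 0`, of
Gaussian integers, one member of which is a unit times an `m`-th power, have `rad(abc) ≤ X`, all
primes of absolute value at most `y` and `log max {|a|, |b|, |c|} ≤ H`. -/
theorem result (m : ℕ) (ε : ℝ) (hm : 2 ≤ m) (hε : 0 < ε) : ∃ C : ℝ,
    ∀ X y H : ℝ, 1 ≤ X → 1 ≤ y → 1 ≤ H → (ByRadical m X y H).Finite ∧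
      ((ByRadical m X y H).ncard : ℝ) ≤
        C * y ^ 2 * X ^ (2 * ((m : ℝ) + 1) / (2 * m + 1) + ε) * (1 + Real.log H) := by
  obtain ⟨C, _, h⟩ := Pool.Agent.TH876.NP.gauss (Pool.Agent.TH876.NP.trip _
    (Pool.Agent.TH876.NP.three _ (Pool.Agent.TH876.NP.choose _) (Pool.Agent.TH876.NP.core _
      (Pool.Agent.TH876.NP.scale _ (Pool.Agent.TH876.NP.classes _) (Pool.Agent.TH876.NP.roots _)
        (Pool.Agent.TH876.NP.gap _))))) m ε hm hε
  refine ⟨C, fun X y H hX hy hH => fin_of_bound _ _ fun G hG => h X y H hX hy hH G ?_⟩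
  intro p hp
  obtain ⟨⟨h1, h2, h3, h4, h5⟩, h6, h7, h8⟩ := hG hp
  exact { ha := h1, hb := h2, hc := h3, cop := h4, pow := h5, rad := h6, smooth := h7, height := h8 }

end Pool.Agent.Results.MP_dc323a_nt.PerfectPowerMember
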